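import Mathlib

/-!
The second Grzegorczyk class.
-/

set_option autoImplicit false

namespace Pool.Agent.X234.GZ

open List.Vector

/-- The second Grzegorczyk class: the smallest class of functions containing zero, successor,
projections, addition and multiplication and closed under composition and bounded primitive
recursion. -/
inductive E2 : ∀ {n : ℕ}, (List.Vector ℕ n → ℕ) → Prop
  | zero : @E2 0 fun _ => 0
  | succ : @E2 1 fun v => Nat.succ v.head
  | get {n : ℕ} (i : Fin n) : E2 fun v => v.get i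
  | add : @E2 2 fun v => v.get 0 + v.get 1
  | mul : @E2 2 fun v => v.get 0 * v.get 1
  | comp {m n : ℕ} {f : List.Vector ℕ n → ℕ} (g : Fin n → List.Vector ℕ m → ℕ) :
      E2 f → (∀ i, E2 (g i)) → E2 fun v => f (ofFn fun i => g i v)
  | prec {n : ℕ} {f : List.Vector ℕ n → ℕ} {g : List.Vector ℕ (n + 2) → ℕ}
      {b : List.Vector ℕ (n + 1) → ℕ} : E2 f → E2 g → E2 b →
      (∀ v : List.Vector ℕ (n + 1),
        (v.head.rec (f v.tail) fun y r => g (y ::ᵥ r ::ᵥ v.tail) : ℕ) ≤ b v) →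
      E2 fun v : List.Vector ℕ (n + 1) =>
        (v.head.rec (f v.tail) fun y r => g (y ::ᵥ r ::ᵥ v.tail) : ℕ)

namespace E2

variable {k : ℕ}

theorem comp1 {F : ℕ → ℕ} (hF : @E2 1 fun v => F (v.get 0)) {g : List.Vector ℕ k → ℕ}
    (hg : E2 g) : E2 fun v => F (g v) := by
  have h := E2.comp (fun _ => g) hF (fun _ => hg)
  simpa using h

theorem comp2 {F : ℕ → ℕ → ℕ} (hF : @E2 2 fun v => F (v.get 0) (v.get 1))
    {g h : List.Vector ℕ k → ℕ} (hg : E2 g) (hh : E2 h) : E2 fun v => F (g v) (h v) := by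
  have h1 := E2.comp (fun i : Fin 2 => if i = 0 then g else h) hF (fun i => by
    split_ifs <;> assumption)
  simpa using h1

theorem comp3 {F : ℕ → ℕ → ℕ → ℕ} (hF : @E2 3 fun v => F (v.get 0) (v.get 1) (v.get 2))
    {g h l : List.Vector ℕ k → ℕ} (hg : E2 g) (hh : E2 h) (hl : E2 l) :
    E2 fun v => F (g v) (h v) (l v) := by
  have h1 := E2.comp (fun i : Fin 3 => if i = 0 then g else if i = 1 then h else l) hF (fun i => by
    split_ifs <;> assumption)
  simpa using h1

theorem fadd {f g : List.Vector ℕ k → ℕ} (hf : E2 f) (hg : E2 g) : E2 fun v => f v + g v :=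
  comp2 E2.add hf hg

theorem fmul {f g : List.Vector ℕ k → ℕ} (hf : E2 f) (hg : E2 g) : E2 fun v => f v * g v :=
  comp2 E2.mul hf hg

theorem fsucc {f : List.Vector ℕ k → ℕ} (hf : E2 f) : E2 fun v => f v + 1 := by
  refine comp1 (F := fun n => n + 1) ?_ hf
  have h := E2.succ
  simpa using h

theorem const (c : ℕ) : E2 fun _ : List.Vector ℕ k => c := by
  induction c with
  | zero =>
    have h := E2.comp (m := k) (n := 0) (fun i => i.elim0) E2.zero (fun i => i.elim0)
    simpa using h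
  | succ c ih => exact fsucc ih

theorem g1 {n : ℕ} (y r : ℕ) (w : List.Vector ℕ n) : (y ::ᵥ r ::ᵥ w).get 1 = r := rfl

theorem g0 {n : ℕ} (y : ℕ) (w : List.Vector ℕ n) : (y ::ᵥ w).get 0 = y := rfl

theorem g2 {n : ℕ} (y r : ℕ) (w : List.Vector ℕ (n + 1)) :
    (y ::ᵥ r ::ᵥ w).get 2 = w.head := by
  obtain ⟨a, l, rfl⟩ := List.Vector.exists_eq_cons w
  rfl

/-- bounded recursion without parameters -/
theorem rec0 {F : ℕ → ℕ} {G : ℕ → ℕ → ℕ} {b : ℕ → ℕ}
    (hG : @E2 2 fun v => G (v.get 0) (v.get 1)) (hb : @E2 1 fun v => b (v.get 0))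
    (h1 : ∀ n, F (n + 1) = G n (F n)) (h2 : ∀ n, F n ≤ b n) : @E2 1 fun v => F (v.get 0) := by
  have key : ∀ n, (Nat.rec (F 0) (fun y r => G y r) n : ℕ) = F n := by
    intro n
    induction n with
    | zero => rfl
    | succ n ih => rw [h1, ← ih]
  have h := E2.prec (n := 0) (f := fun _ => F 0) (g := fun v => G (v.get 0) (v.get 1))
    (b := fun v => b (v.get 0)) (const _) hG hb (by
      intro v
      have := h2 v.head
      rw [← key] at this
      simp only [List.Vector.head_cons, g1, List.Vector.get_zero]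
      exact this)
  have h3 : (fun v : List.Vector ℕ 1 => F (v.get 0)) = fun v : List.Vector ℕ 1 =>
      (v.head.rec (F 0) (fun y r => G ((y ::ᵥ r ::ᵥ v.tail).get 0) ((y ::ᵥ r ::ᵥ v.tail).get 1)) : ℕ) := by
    funext v
    rw [List.Vector.get_zero, ← key]
    rfl
  rw [h3]
  exact h

/-- bounded recursion with one parameter -/
theorem rec1 {F : ℕ → ℕ → ℕ} {f : ℕ → ℕ} {G : ℕ → ℕ → ℕ → ℕ} {b : ℕ → ℕ → ℕ}
    (hf : @E2 1 fun v => f (v.get 0))
    (hG : @E2 3 fun v => G (v.get 0) (v.get 1) (v.get 2))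
    (hb : @E2 2 fun v => b (v.get 0) (v.get 1)) (h0 : ∀ a, F 0 a = f a)
    (h1 : ∀ n a, F (n + 1) a = G n (F n a) a) (h2 : ∀ n a, F n a ≤ b n a) :
    @E2 2 fun v => F (v.get 0) (v.get 1) := by
  have key : ∀ n a, (Nat.rec (f a) (fun y r => G y r a) n : ℕ) = F n a := by
    intro n a
    induction n with
    | zero => exact (h0 a).symm
    | succ n ih => rw [h1, ← ih]
  have e1 : ∀ v : List.Vector ℕ 2, v.get 1 = v.tail.head := by
    intro v
    obtain ⟨a, w, rfl⟩ := List.Vector.exists_eq_cons v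
    obtain ⟨c, w', rfl⟩ := List.Vector.exists_eq_cons w
    rfl
  have h3 : (fun v : List.Vector ℕ 2 => F (v.get 0) (v.get 1)) = fun v : List.Vector ℕ 2 =>
      (v.head.rec (f (v.tail.get 0)) (fun y r => G ((y ::ᵥ r ::ᵥ v.tail).get 0)
        ((y ::ᵥ r ::ᵥ v.tail).get 1) ((y ::ᵥ r ::ᵥ v.tail).get 2)) : ℕ) := by
    funext v
    rw [List.Vector.get_zero, e1, ← key]
    simp only [List.Vector.head_cons, g1, g2, List.Vector.get_zero]
  rw [h3]
  refine E2.prec (n := 1) (f := fun v => f (v.get 0))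
    (g := fun v => G (v.get 0) (v.get 1) (v.get 2))
    (b := fun v => b (v.get 0) (v.get 1)) hf hG hb ?_
  intro v
  have := h2 v.head v.tail.head
  rw [← key] at this
  simp only [List.Vector.head_cons, g1, g2, List.Vector.get_zero, e1]
  exact this

/-- bounded recursion with two parameters -/
theorem rec2 {F : ℕ → ℕ → ℕ → ℕ} {f : ℕ → ℕ → ℕ} {G : ℕ → ℕ → ℕ → ℕ → ℕ} {b : ℕ → ℕ → ℕ → ℕ}
    (hf : @E2 2 fun v => f (v.get 0) (v.get 1))
    (hG : @E2 4 fun v => G (v.get 0) (v.get 1) (v.get 2) (v.get 3))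
    (hb : @E2 3 fun v => b (v.get 0) (v.get 1) (v.get 2)) (h0 : ∀ a c, F 0 a c = f a c)
    (h1 : ∀ n a c, F (n + 1) a c = G n (F n a c) a c) (h2 : ∀ n a c, F n a c ≤ b n a c) :
    @E2 3 fun v => F (v.get 0) (v.get 1) (v.get 2) := by
  have key : ∀ n a c, (Nat.rec (f a c) (fun y r => G y r a c) n : ℕ) = F n a c := by
    intro n a c
    induction n with
    | zero => exact (h0 a c).symm
    | succ n ih => rw [h1, ← ih]
  have e1 : ∀ v : List.Vector ℕ 3, v.get 1 = v.tail.head ∧ v.get 2 = v.tail.get 1 := by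
    intro v
    obtain ⟨a, w, rfl⟩ := List.Vector.exists_eq_cons v
    obtain ⟨c, w', rfl⟩ := List.Vector.exists_eq_cons w
    obtain ⟨d, w'', rfl⟩ := List.Vector.exists_eq_cons w'
    exact ⟨rfl, rfl⟩
  have e2 : ∀ (y r : ℕ) (w : List.Vector ℕ 2), (y ::ᵥ r ::ᵥ w).get 3 = w.get 1 := by
    intro y r v
    obtain ⟨a, w, rfl⟩ := List.Vector.exists_eq_cons v
    obtain ⟨c, w', rfl⟩ := List.Vector.exists_eq_cons w
    rfl
  have h3 : (fun v : List.Vector ℕ 3 => F (v.get 0) (v.get 1) (v.get 2)) =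
      fun v : List.Vector ℕ 3 =>
      (v.head.rec (f (v.tail.get 0) (v.tail.get 1)) (fun y r => G ((y ::ᵥ r ::ᵥ v.tail).get 0)
        ((y ::ᵥ r ::ᵥ v.tail).get 1) ((y ::ᵥ r ::ᵥ v.tail).get 2)
        ((y ::ᵥ r ::ᵥ v.tail).get 3)) : ℕ) := by
    funext v
    rw [List.Vector.get_zero, (e1 v).1, (e1 v).2, ← key]
    simp only [List.Vector.head_cons, g1, g2, e2, List.Vector.get_zero]
  rw [h3]
  refine E2.prec (n := 2) (f := fun v => f (v.get 0) (v.get 1))
    (g := fun v => G (v.get 0) (v.get 1) (v.get 2) (v.get 3))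
    (b := fun v => b (v.get 0) (v.get 1) (v.get 2)) hf hG hb ?_
  intro v
  have := h2 v.head v.tail.head (v.tail.get 1)
  rw [← key] at this
  simp only [List.Vector.head_cons, g1, g2, e2, List.Vector.get_zero, (e1 v).1, (e1 v).2]
  exact this

theorem fpred {f : List.Vector ℕ k → ℕ} (hf : E2 f) : E2 fun v => f v - 1 :=
  comp1 (F := fun n => n - 1) (rec0 (G := fun y _ => y) (b := fun n => n) (E2.get 0) (E2.get 0)
    (fun n => rfl) (fun n => Nat.sub_le n 1)) hf

theorem fsub {f g : List.Vector ℕ k → ℕ} (hf : E2 f) (hg : E2 g) : E2 fun v => f v - g v := by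
  have h : @E2 2 fun v => v.get 1 - v.get 0 :=
    rec1 (F := fun n a => a - n) (f := fun a => a) (G := fun _ r _ => r - 1) (b := fun _ a => a)
      (E2.get 0) (fpred (E2.get 1)) (E2.get 1) (fun a => rfl) (fun n a => by omega)
      (fun n a => Nat.sub_le a n)
  exact comp2 (F := fun n a => a - n) h hg hf

/-- test for zero -/
def ifz (c a b : ℕ) : ℕ := if c = 0 then a else b

theorem fifz {f g h : List.Vector ℕ k → ℕ} (hf : E2 f) (hg : E2 g) (hh : E2 h) :
    E2 fun v => ifz (f v) (g v) (h v) := by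
  have h1 : (fun v => ifz (f v) (g v) (h v)) =
      fun v => (1 - f v) * g v + (1 - (1 - f v)) * h v := by
    funext v
    unfold ifz
    split_ifs with h0
    · simp [h0]
    · have : 1 - f v = 0 := by omega
      simp [this]
  rw [h1]
  exact fadd (fmul (fsub (const 1) hf) hg) (fmul (fsub (const 1) (fsub (const 1) hf)) hh)

theorem fite_le {f g h l : List.Vector ℕ k → ℕ} (hf : E2 f) (hg : E2 g) (hh : E2 h) (hl : E2 l) :
    E2 fun v => if f v ≤ g v then h v else l v := by
  have h1 : (fun v => if f v ≤ g v then h v else l v) =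
      fun v => ifz (f v - g v) (h v) (l v) := by
    funext v
    unfold ifz
    by_cases h0 : f v ≤ g v
    · rw [if_pos h0, if_pos (by omega)]
    · rw [if_neg h0, if_neg (by omega)]
  rw [h1]
  exact fifz (fsub hf hg) hh hl

theorem fite_lt {f g h l : List.Vector ℕ k → ℕ} (hf : E2 f) (hg : E2 g) (hh : E2 h) (hl : E2 l) :
    E2 fun v => if f v < g v then h v else l v := by
  have h1 : (fun v => if f v < g v then h v else l v) =
      fun v => if f v + 1 ≤ g v then h v else l v := rfl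
  rw [h1]
  exact fite_le (fsucc hf) hg hh hl

theorem fite_eq {f g h l : List.Vector ℕ k → ℕ} (hf : E2 f) (hg : E2 g) (hh : E2 h) (hl : E2 l) :
    E2 fun v => if f v = g v then h v else l v := by
  have h1 : (fun v => if f v = g v then h v else l v) =
      fun v => ifz ((f v - g v) + (g v - f v)) (h v) (l v) := by
    funext v
    unfold ifz
    by_cases h0 : f v = g v
    · rw [if_pos h0, if_pos (by omega)]
    · rw [if_neg h0, if_neg (by omega)]
  rw [h1]
  exact fifz (fadd (fsub hf hg) (fsub hg hf)) hh hl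

theorem fsqrt {f : List.Vector ℕ k → ℕ} (hf : E2 f) : E2 fun v => Nat.sqrt (f v) := by
  refine comp1 (F := Nat.sqrt) (rec0 (G := fun y r => if (r + 1) * (r + 1) ≤ y + 1 then r + 1 else r)
    (b := fun n => n) ?_ (E2.get 0) ?_ (fun n => Nat.sqrt_le_self n)) hf
  · exact fite_le (fmul (fsucc (E2.get 1)) (fsucc (E2.get 1))) (fsucc (E2.get 0))
      (fsucc (E2.get 1)) (E2.get 1)
  · intro n
    have h1 : n.sqrt * n.sqrt ≤ n := Nat.sqrt_le n
    have h2 : n < (n.sqrt + 1) * (n.sqrt + 1) := Nat.lt_succ_sqrt n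
    split_ifs with h3
    · apply le_antisymm
      · have h4 : (n + 1).sqrt < n.sqrt + 1 + 1 := by
          rw [Nat.sqrt_lt]
          nlinarith
        omega
      · rw [Nat.le_sqrt]
        exact h3
    · apply le_antisymm
      · have h4 : (n + 1).sqrt < n.sqrt + 1 := by
          rw [Nat.sqrt_lt]
          omega
        omega
      · rw [Nat.le_sqrt]
        omega

theorem fpair {f g : List.Vector ℕ k → ℕ} (hf : E2 f) (hg : E2 g) :
    E2 fun v => Nat.pair (f v) (g v) := by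
  unfold Nat.pair
  exact fite_lt hf hg (fadd (fmul hg hg) hf) (fadd (fadd (fmul hf hf) hf) hg)

theorem ffst {f : List.Vector ℕ k → ℕ} (hf : E2 f) : E2 fun v => (Nat.unpair (f v)).1 := by
  have h1 : (fun v => (Nat.unpair (f v)).1) = fun v =>
      if f v - Nat.sqrt (f v) * Nat.sqrt (f v) < Nat.sqrt (f v) then
        f v - Nat.sqrt (f v) * Nat.sqrt (f v) else Nat.sqrt (f v) := by
    funext v
    unfold Nat.unpair
    simp only
    split_ifs <;> rfl
  rw [h1]
  exact fite_lt (fsub hf (fmul (fsqrt hf) (fsqrt hf))) (fsqrt hf)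
    (fsub hf (fmul (fsqrt hf) (fsqrt hf))) (fsqrt hf)

theorem fsnd {f : List.Vector ℕ k → ℕ} (hf : E2 f) : E2 fun v => (Nat.unpair (f v)).2 := by
  have h1 : (fun v => (Nat.unpair (f v)).2) = fun v =>
      if f v - Nat.sqrt (f v) * Nat.sqrt (f v) < Nat.sqrt (f v) then
        Nat.sqrt (f v) else f v - Nat.sqrt (f v) * Nat.sqrt (f v) - Nat.sqrt (f v) := by
    funext v
    unfold Nat.unpair
    simp only
    split_ifs <;> rfl
  rw [h1]
  exact fite_lt (fsub hf (fmul (fsqrt hf) (fsqrt hf))) (fsqrt hf) (fsqrt hf)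
    (fsub (fsub hf (fmul (fsqrt hf) (fsqrt hf))) (fsqrt hf))

end E2

end Pool.Agent.X234.GZ
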