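import Pool.Agent.X234.GZ.E2

/-!
A machine whose step function is in the second Grzegorczyk class and which evaluates all primitive
recursive functions within primitive recursive bounds.
-/

set_option autoImplicit false

namespace Pool.Agent.X234.GZ

open Nat

/-- evaluate the program `p` on `n` with continuation `K` -/
def Ev (p n K : ℕ) : ℕ := pair 0 (pair p (pair n K))

/-- return the value `m` to the continuation `K` -/
def Rt (m K : ℕ) : ℕ := pair 1 (pair m K)

/-- evaluation step -/
def stepE (p n K : ℕ) : ℕ :=
  if p.unpair.1 = 0 then Rt 0 K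
  else if p.unpair.1 = 1 then Rt (n + 1) K
  else if p.unpair.1 = 2 then Rt n.unpair.1 K
  else if p.unpair.1 = 3 then Rt n.unpair.2 K
  else if p.unpair.1 = 4 then
    Ev p.unpair.2.unpair.1 n (pair 1 (pair (pair p.unpair.2.unpair.2 n) K))
  else if p.unpair.1 = 5 then
    Ev p.unpair.2.unpair.2 n (pair 3 (pair p.unpair.2.unpair.1 K))
  else
    Ev p.unpair.2.unpair.1 n.unpair.1
      (pair 4 (pair (pair p.unpair.2.unpair.2 (pair n.unpair.1 (pair 0 n.unpair.2))) K))

/-- return step, for a continuation `K = pair κ (pair d K')` -/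
def stepR (s m κ d K' : ℕ) : ℕ :=
  if κ = 0 then s
  else if κ = 1 then Ev d.unpair.1 d.unpair.2 (pair 2 (pair m K'))
  else if κ = 2 then Rt (pair d m) K'
  else if κ = 3 then Ev d m K'
  else if d.unpair.2.unpair.2.unpair.1 = d.unpair.2.unpair.2.unpair.2 then Rt m K'
  else Ev d.unpair.1 (pair d.unpair.2.unpair.1 (pair d.unpair.2.unpair.2.unpair.1 m))
    (pair 4 (pair (pair d.unpair.1 (pair d.unpair.2.unpair.1
      (pair (d.unpair.2.unpair.2.unpair.1 + 1) d.unpair.2.unpair.2.unpair.2))) K'))

/-- the step function -/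
def step (s : ℕ) : ℕ :=
  if s.unpair.1 = 0 then
    stepE s.unpair.2.unpair.1 s.unpair.2.unpair.2.unpair.1 s.unpair.2.unpair.2.unpair.2
  else
    stepR s s.unpair.2.unpair.1 s.unpair.2.unpair.2.unpair.1
      s.unpair.2.unpair.2.unpair.2.unpair.1 s.unpair.2.unpair.2.unpair.2.unpair.2

namespace E2

variable {k : ℕ}

theorem fEv {f g h : List.Vector ℕ k → ℕ} (hf : E2 f) (hg : E2 g) (hh : E2 h) :
    E2 fun v => Ev (f v) (g v) (h v) := fpair (const 0) (fpair hf (fpair hg hh))

theorem fRt {f g : List.Vector ℕ k → ℕ} (hf : E2 f) (hg : E2 g) :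
    E2 fun v => Rt (f v) (g v) := fpair (const 1) (fpair hf hg)

theorem fstepE {f g h : List.Vector ℕ k → ℕ} (hf : E2 f) (hg : E2 g) (hh : E2 h) :
    E2 fun v => stepE (f v) (g v) (h v) := by
  unfold stepE
  repeat' first
    | with_reducible assumption
    | with_reducible exact E2.const _
    | with_reducible exact E2.get _
    | with_reducible apply E2.fEv
    | with_reducible apply E2.fRt
    | with_reducible apply E2.fite_eq
    | with_reducible apply E2.fite_le
    | with_reducible apply E2.fite_lt
    | with_reducible apply E2.fpair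
    | with_reducible apply E2.ffst
    | with_reducible apply E2.fsnd
    | with_reducible apply E2.fsucc
    | with_reducible apply E2.fadd
    | with_reducible apply E2.fmul

theorem fstepR {s m κ d K : List.Vector ℕ k → ℕ} (hs : E2 s) (hm : E2 m) (hκ : E2 κ) (hd : E2 d)
    (hK : E2 K) : E2 fun v => stepR (s v) (m v) (κ v) (d v) (K v) := by
  unfold stepR
  repeat' first
    | with_reducible assumption
    | with_reducible exact E2.const _
    | with_reducible exact E2.get _
    | with_reducible apply E2.fEv
    | with_reducible apply E2.fRt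
    | with_reducible apply E2.fite_eq
    | with_reducible apply E2.fite_le
    | with_reducible apply E2.fite_lt
    | with_reducible apply E2.fpair
    | with_reducible apply E2.ffst
    | with_reducible apply E2.fsnd
    | with_reducible apply E2.fsucc
    | with_reducible apply E2.fadd
    | with_reducible apply E2.fmul

theorem fstep {f : List.Vector ℕ k → ℕ} (hf : E2 f) : E2 fun v => step (f v) := by
  unfold step
  exact fite_eq (ffst hf) (const 0) (fstepE (ffst (fsnd hf)) (ffst (fsnd (fsnd hf)))
    (fsnd (fsnd (fsnd hf)))) (fstepR hf (ffst (fsnd hf)) (ffst (fsnd (fsnd hf)))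
    (ffst (fsnd (fsnd (fsnd hf)))) (fsnd (fsnd (fsnd (fsnd hf)))))

end E2

/-- initial state for the input `e` -/
def init (e : ℕ) : ℕ := Ev e.unpair.1 e 0

/-- the run with the bound `x` for the states -/
def run : ℕ → ℕ → ℕ → ℕ
  | 0, e, _ => init e
  | t + 1, e, x => if step (run t e x) ≤ x then step (run t e x) else run t e x

theorem run_le (t e x : ℕ) : run t e x ≤ x + init e := by
  induction t with
  | zero => simp [run]
  | succ t ih =>
    rw [run]
    split_ifs with h
    · omega
    · exact ih

/-- the run with bound `x` and `x` steps accepts -/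
def acc (e x : ℕ) : ℕ := if run x e x = Rt 1 0 then 1 else 0

theorem e2_run : @E2 3 fun v => run (v.get 0) (v.get 1) (v.get 2) := by
  refine E2.rec2 (f := fun e _ => init e)
    (G := fun _ r _ x => if step r ≤ x then step r else r) (b := fun _ e x => x + init e)
    ?_ ?_ ?_ (fun _ _ => rfl) (fun _ _ _ => rfl) (fun t e x => run_le t e x)
  · unfold init
    exact E2.fEv (E2.ffst (E2.get 0)) (E2.get 0) (E2.const 0)
  · exact E2.fite_le (E2.fstep (E2.get 1)) (E2.get 3) (E2.fstep (E2.get 1)) (E2.get 1)
  · unfold init
    exact E2.fadd (E2.get 2) (E2.fEv (E2.ffst (E2.get 1)) (E2.get 1) (E2.const 0))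

theorem e2_acc : @E2 2 fun v => acc (v.get 0) (v.get 1) := by
  unfold acc
  exact E2.fite_eq (E2.comp3 e2_run (E2.get 1) (E2.get 0) (E2.get 1)) (E2.const _) (E2.const _)
    (E2.const _)

/-- the machine goes from `s` to `s'` in at most `W` steps, with states bounded by `W` -/
def Reach (s s' W : ℕ) : Prop := ∃ T ≤ W, step^[T] s = s' ∧ ∀ t ≤ T, step^[t] s ≤ W

theorem Reach.trans {s s' s'' W W' : ℕ} (h : Reach s s' W) (h' : Reach s' s'' W') :
    Reach s s'' (W + W') := by
  obtain ⟨T, hT, h1, h2⟩ := h
  obtain ⟨T', hT', h1', h2'⟩ := h'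
  refine ⟨T + T', by omega, ?_, ?_⟩
  · rw [Nat.add_comm T T', Function.iterate_add_apply, h1, h1']
  · intro t ht
    rcases Nat.le_total t T with h3 | h3
    · exact (h2 t h3).trans (Nat.le_add_right _ _)
    · obtain ⟨r, rfl⟩ := Nat.exists_eq_add_of_le h3
      rw [Nat.add_comm T r, Function.iterate_add_apply, h1]
      exact (h2' r (by omega)).trans (Nat.le_add_left _ _)

theorem Reach.single (s : ℕ) : Reach s (step s) (1 + s + step s) := by
  refine ⟨1, by omega, rfl, ?_⟩
  intro t ht
  interval_cases t
  · simp only [Function.iterate_zero, id]; omega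
  · simp only [Function.iterate_one]; omega

theorem Reach.single' {s s' : ℕ} (h : step s = s') : Reach s s' (1 + s + s') := by
  rw [← h]; exact Reach.single s

end Pool.Agent.X234.GZ
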