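import Pool.Agent.X234.GZ.Prog

/-!
The second Grzegorczyk class is a basis for punctual standardness.
-/

set_option autoImplicit false

namespace Pool.Agent.X234.GZ

/-- `(ℕ, S)` is a punctual copy of `(ℕ, n ↦ n + 1)`, with the isomorphism `ι`. -/
structure Copy (S : ℕ → ℕ) (ι : ℕ ≃ ℕ) : Prop where
  primrec : Nat.Primrec S
  map_succ : ∀ n, ι (n + 1) = S (ι n)

/-- The function `f^A`. -/
def onCopy (ι : ℕ ≃ ℕ) {k : ℕ} (f : List.Vector ℕ k → ℕ) (v : List.Vector ℕ k) : ℕ :=
  ι (f (v.map ι.symm))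

/-- `f` is primitive recursive on the copy. -/
def PrimrecOn (ι : ℕ ≃ ℕ) {k : ℕ} (f : List.Vector ℕ k → ℕ) : Prop := Nat.Primrec' (onCopy ι f)

/-- The copy is punctually standard. -/
def Standard (ι : ℕ ≃ ℕ) : Prop :=
  ∀ (k : ℕ) (f : List.Vector ℕ k → ℕ), PrimrecOn ι f ↔ Nat.Primrec' f

/-- The class `𝓕` of functions is a basis for punctual standardness. -/
def Basis (𝓕 : ∀ k : ℕ, (List.Vector ℕ k → ℕ) → Prop) : Prop :=
  ∀ (S : ℕ → ℕ) (ι : ℕ ≃ ℕ), Copy S ι →
    (∀ (k : ℕ) (f : List.Vector ℕ k → ℕ), 𝓕 k f → PrimrecOn ι f) → Standard ι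

theorem primrec_iso {S : ℕ → ℕ} {ι : ℕ ≃ ℕ} (h : Copy S ι) : Primrec (ι : ℕ → ℕ) := by
  have h1 : Primrec fun n : ℕ => (n.rec (ι 0) fun _ r => S r : ℕ) := by
    refine Primrec.nat_rec' (f := fun n : ℕ => n) (g := fun _ : ℕ => ι 0)
      (h := fun (_ : ℕ) (y : ℕ × ℕ) => S y.2) Primrec.id (Primrec.const _) ?_
    exact (Primrec.nat_iff.2 h.primrec).comp (Primrec.snd.comp Primrec.snd)
  refine h1.of_eq fun n => ?_
  induction n with
  | zero => rfl
  | succ n ih => rw [h.map_succ, ← ih]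

theorem standard_of_primrec {ι : ℕ ≃ ℕ} (h1 : Primrec (ι : ℕ → ℕ))
    (h2 : Primrec (ι.symm : ℕ → ℕ)) : Standard ι := by
  have hmap : ∀ {k : ℕ} {g : ℕ → ℕ}, Primrec g →
      Primrec fun v : List.Vector ℕ k => v.map g := by
    intro k g hg
    have h3 : Primrec fun v : List.Vector ℕ k => List.Vector.ofFn fun i => g (v.get i) :=
      Primrec.vector_ofFn fun i => hg.comp (Primrec.vector_get.comp Primrec.id (Primrec.const i))
    refine h3.of_eq fun v => ?_
    ext i
    simp
  intro k f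
  unfold PrimrecOn
  rw [Nat.Primrec'.prim_iff, Nat.Primrec'.prim_iff]
  constructor
  · intro h
    have h3 : Primrec fun v : List.Vector ℕ k => ι.symm (onCopy ι f (v.map ι)) :=
      h2.comp (h.comp (hmap h1))
    refine h3.of_eq fun v => ?_
    unfold onCopy
    rw [Equiv.symm_apply_apply]
    congr 1
    ext i
    simp
  · intro h
    exact h1.comp (h.comp (hmap h2))

theorem single_basis (S : ℕ → ℕ) (ι : ℕ ≃ ℕ) (hA : Copy S ι)
    (hE : PrimrecOn ι fun v : List.Vector ℕ 2 => acc (v.get 0) (v.get 1)) : Standard ι := by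
  have hι := primrec_iso hA
  refine standard_of_primrec hι ?_
  -- the diagonal function
  have h1 : Primrec (onCopy ι fun v : List.Vector ℕ 2 => acc (v.get 0) (v.get 1)) :=
    Nat.Primrec'.prim_iff.1 hE
  let Dg : ℕ × ℕ → ℕ := fun x => ι (acc x.1 (ι.symm x.2))
  have hD : Primrec Dg := by
    have h2 : Primrec fun x : ℕ × ℕ => onCopy ι
        (fun v : List.Vector ℕ 2 => acc (v.get 0) (v.get 1)) (ι x.1 ::ᵥ x.2 ::ᵥ List.Vector.nil) :=
      h1.comp (Primrec.vector_cons.comp (hι.comp Primrec.fst)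
        (Primrec.vector_cons.comp Primrec.snd (Primrec.const _)))
    refine h2.of_eq fun x => ?_
    unfold onCopy
    simp only [Dg]
    congr 2
    · change ι.symm (ι x.1) = x.1
      simp
  let Q : ℕ → ℕ := fun z => if Dg (z, z.unpair.2) = ι 1 then 0 else 1
  have hQ : Primrec Q := by
    refine Primrec.ite (Primrec.eq.comp (hD.comp (Primrec.pair Primrec.id
      (Primrec.snd.comp Primrec.unpair))) (Primrec.const _)) (Primrec.const 0) (Primrec.const 1)
  obtain ⟨p, W, hW, hp⟩ := good_of_primrec (Primrec.nat_iff.1 hQ)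
  have hacc : ∀ e x, acc e x = 0 ∨ acc e x = 1 := by
    intro e x
    unfold acc
    split_ifs <;> simp
  have hbound : ∀ a, ι.symm a < W (Nat.pair p a) 0 := by
    intro a
    by_contra hlt
    push Not at hlt
    have h2 := acc_iff hp (e := Nat.pair p a) (x := ι.symm a) (by simp) hlt
    simp only [Q, Dg, Nat.unpair_pair] at h2
    rcases hacc (Nat.pair p a) (ι.symm a) with h3 | h3
    · rw [h3] at h2
      have h4 : ι 0 ≠ ι 1 := fun h => by simpa using ι.injective h
      simp [h4] at h2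
    · rw [h3] at h2
      simp at h2
  have hfind : Primrec fun a : ℕ => (W (Nat.pair p a) 0).findGreatest fun n => ι n = a := by
    refine Primrec.nat_findGreatest (f := fun a : ℕ => W (Nat.pair p a) 0)
      (p := fun a n => ι n = a) ?_ ?_
    · exact hW.comp (primrec_pair (Primrec.const p) Primrec.id) (Primrec.const 0)
    · exact Primrec.eq.comp (hι.comp Primrec.snd) Primrec.fst
  refine hfind.of_eq fun a => ?_
  have h2 : ι ((W (Nat.pair p a) 0).findGreatest fun n => ι n = a) = a :=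
    Nat.findGreatest_spec (P := fun n => ι n = a) (hbound a).le (ι.apply_symm_apply a)
  rw [Equiv.eq_symm_apply]
  exact h2

theorem e2_basis : Basis fun _ f => E2 f :=
  fun S ι hA hE => single_basis S ι hA (hE 2 _ e2_acc)

end Pool.Agent.X234.GZ
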