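import Pool.Agent.X234.GZ.Mach

/-!
Programs for the primitive recursive functions, with primitive recursive bounds.
-/

set_option autoImplicit false

namespace Pool.Agent.X234.GZ

open Nat

theorem step_Ev (p n K : ℕ) : step (Ev p n K) = stepE p n K := by
  simp [step, Ev, unpair_pair]

theorem step_Rt (m K : ℕ) : step (Rt m K) = stepR (Rt m K) m K.unpair.1
    K.unpair.2.unpair.1 K.unpair.2.unpair.2 := by
  simp [step, Rt, unpair_pair]

theorem primrec_pair {α : Type} [Primcodable α] {f g : α → ℕ} (hf : Primrec f) (hg : Primrec g) :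
    Primrec fun a => pair (f a) (g a) := Primrec₂.natPair.comp hf hg

theorem primrec_Ev {α : Type} [Primcodable α] {f g h : α → ℕ} (hf : Primrec f) (hg : Primrec g)
    (hh : Primrec h) : Primrec fun a => Ev (f a) (g a) (h a) :=
  primrec_pair (Primrec.const 0) (primrec_pair hf (primrec_pair hg hh))

theorem primrec_Rt {α : Type} [Primcodable α] {f g : α → ℕ} (hf : Primrec f) (hg : Primrec g) :
    Primrec fun a => Rt (f a) (g a) :=
  primrec_pair (Primrec.const 1) (primrec_pair hf hg)

theorem primrec_add {α : Type} [Primcodable α] {f g : α → ℕ} (hf : Primrec f) (hg : Primrec g) :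
    Primrec fun a => f a + g a := Primrec.nat_add.comp hf hg

/-- programs with bounds -/
def Good (f : ℕ → ℕ) : Prop :=
  ∃ (p : ℕ) (W : ℕ → ℕ → ℕ), Primrec₂ W ∧ ∀ n K, Reach (Ev p n K) (Rt (f n) K) (W n K)

theorem good_simple (p : ℕ) {f : ℕ → ℕ} (hf : Primrec f)
    (h : ∀ n K, step (Ev p n K) = Rt (f n) K) : Good f := by
  refine ⟨p, fun n K => 1 + Ev p n K + Rt (f n) K, ?_, fun n K => Reach.single' (h n K)⟩
  exact primrec_add (primrec_add (Primrec.const 1) (primrec_Ev (Primrec.const p) Primrec.fst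
    Primrec.snd)) (primrec_Rt (hf.comp Primrec.fst) Primrec.snd)

theorem good_pair {f g : ℕ → ℕ} (hf : Primrec f) (hg : Primrec g) (h1 : Good f) (h2 : Good g) :
    Good fun n => pair (f n) (g n) := by
  obtain ⟨p, V, hV, hp⟩ := h1
  obtain ⟨q, W, hW, hq⟩ := h2
  -- the states
  let r := pair 4 (pair p q)
  let K1 : ℕ × ℕ → ℕ := fun x => pair 1 (pair (pair q x.1) x.2)
  let K2 : ℕ × ℕ → ℕ := fun x => pair 2 (pair (f x.1) x.2)
  have hK1 : Primrec K1 := primrec_pair (Primrec.const 1) (primrec_pair (primrec_pair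
    (Primrec.const q) Primrec.fst) Primrec.snd)
  have hK2 : Primrec K2 := primrec_pair (Primrec.const 2) (primrec_pair (hf.comp Primrec.fst)
    Primrec.snd)
  refine ⟨r, fun n K => ((1 + Ev r n K + Ev p n (K1 (n, K))) + V n (K1 (n, K))) +
    ((1 + Rt (f n) (K1 (n, K)) + Ev q n (K2 (n, K))) + W n (K2 (n, K))) +
    (1 + Rt (g n) (K2 (n, K)) + Rt (pair (f n) (g n)) K), ?_, ?_⟩
  · have hn : Primrec fun x : ℕ × ℕ => x.1 := Primrec.fst
    have hK : Primrec fun x : ℕ × ℕ => x.2 := Primrec.snd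
    have hK1' : Primrec fun x : ℕ × ℕ => K1 (x.1, x.2) := hK1
    have hK2' : Primrec fun x : ℕ × ℕ => K2 (x.1, x.2) := hK2
    exact primrec_add (primrec_add (primrec_add (primrec_add (primrec_add (Primrec.const 1)
      (primrec_Ev (Primrec.const r) hn hK)) (primrec_Ev (Primrec.const p) hn hK1'))
      (hV.comp hn hK1')) (primrec_add (primrec_add (primrec_add (Primrec.const 1)
      (primrec_Rt (hf.comp hn) hK1')) (primrec_Ev (Primrec.const q) hn hK2')) (hW.comp hn hK2')))
      (primrec_add (primrec_add (Primrec.const 1) (primrec_Rt (hg.comp hn) hK2'))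
        (primrec_Rt (primrec_pair (hf.comp hn) (hg.comp hn)) hK))
  · intro n K
    refine Reach.trans (Reach.trans (Reach.trans (Reach.single' ?_) (hp n _))
      (Reach.trans (Reach.single' ?_) (hq n _))) (Reach.single' ?_)
    · rw [step_Ev]; simp [stepE, r, K1, unpair_pair]
    · rw [step_Rt]; simp [stepR, K1, K2, unpair_pair]
    · rw [step_Rt]; simp [stepR, K2, unpair_pair]

theorem good_comp {f g : ℕ → ℕ} (hg : Primrec g) (h1 : Good f) (h2 : Good g) :
    Good fun n => f (g n) := by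
  obtain ⟨p, V, hV, hp⟩ := h1
  obtain ⟨q, W, hW, hq⟩ := h2
  let r := pair 5 (pair p q)
  let K1 : ℕ → ℕ := fun K => pair 3 (pair p K)
  have hK1 : Primrec K1 := primrec_pair (Primrec.const 3) (primrec_pair (Primrec.const p) Primrec.id)
  refine ⟨r, fun n K => ((1 + Ev r n K + Ev q n (K1 K)) + W n (K1 K)) +
    ((1 + Rt (g n) (K1 K) + Ev p (g n) K) + V (g n) K), ?_, ?_⟩
  · have hn : Primrec fun x : ℕ × ℕ => x.1 := Primrec.fst
    have hK : Primrec fun x : ℕ × ℕ => x.2 := Primrec.snd
    have hK1' : Primrec fun x : ℕ × ℕ => K1 x.2 := hK1.comp hK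
    have hgn : Primrec fun x : ℕ × ℕ => g x.1 := hg.comp hn
    exact primrec_add (primrec_add (primrec_add (primrec_add (Primrec.const 1)
      (primrec_Ev (Primrec.const r) hn hK)) (primrec_Ev (Primrec.const q) hn hK1'))
      (hW.comp hn hK1')) (primrec_add (primrec_add (primrec_add (Primrec.const 1)
      (primrec_Rt hgn hK1')) (primrec_Ev (Primrec.const p) hgn hK)) (hV.comp hgn hK))
  · intro n K
    refine Reach.trans (Reach.trans (Reach.single' ?_) (hq n _))
      (Reach.trans (Reach.single' ?_) (hp _ _))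
    · rw [step_Ev]; simp [stepE, r, K1, unpair_pair]
    · rw [step_Rt]; simp [stepR, K1, unpair_pair]

/-- the recursion -/
def recf (f g : ℕ → ℕ) (a k : ℕ) : ℕ := k.rec (f a) fun y r => g (pair a (pair y r))

theorem recf_prim {f g : ℕ → ℕ} (hf : Primrec f) (hg : Primrec g) :
    Primrec₂ (recf f g) := by
  unfold recf
  refine Primrec.nat_rec' (f := fun x : ℕ × ℕ => x.2) (g := fun x : ℕ × ℕ => f x.1)
    (h := fun (x : ℕ × ℕ) (y : ℕ × ℕ) => g (pair x.1 (pair y.1 y.2))) Primrec.snd
    (hf.comp Primrec.fst) ?_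
  exact hg.comp (primrec_pair (Primrec.fst.comp Primrec.fst) (primrec_pair
    (Primrec.fst.comp Primrec.snd) (Primrec.snd.comp Primrec.snd)))

theorem good_prec {f g : ℕ → ℕ} (hf : Primrec f) (hg : Primrec g) (h1 : Good f) (h2 : Good g) :
    Good fun n => recf f g n.unpair.1 n.unpair.2 := by
  obtain ⟨p, V, hV, hp⟩ := h1
  obtain ⟨q, W, hW, hq⟩ := h2
  let r := pair 6 (pair p q)
  let L : ℕ → ℕ × ℕ → ℕ := fun y x =>
    pair 4 (pair (pair q (pair x.1.unpair.1 (pair y x.1.unpair.2))) x.2)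
  have hL : Primrec₂ L := primrec_pair (Primrec.const 4) (primrec_pair (primrec_pair
    (Primrec.const q) (primrec_pair (Primrec.fst.comp (Primrec.unpair.comp
      (Primrec.fst.comp Primrec.snd))) (primrec_pair Primrec.fst (Primrec.snd.comp
        (Primrec.unpair.comp (Primrec.fst.comp Primrec.snd)))))) (Primrec.snd.comp Primrec.snd))
  let F : ℕ → ℕ × ℕ → ℕ := fun y x => recf f g x.1.unpair.1 y
  have hF : Primrec₂ F := (recf_prim hf hg).comp (Primrec.fst.comp (Primrec.unpair.comp
      (Primrec.fst.comp Primrec.snd))) Primrec.fst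
  let G : ℕ → ℕ × ℕ → ℕ := fun y x => pair x.1.unpair.1 (pair y (F y x))
  have hG : Primrec₂ G := primrec_pair (Primrec.fst.comp (Primrec.unpair.comp
      (Primrec.fst.comp Primrec.snd))) (primrec_pair Primrec.fst hF)
  let Z : ℕ → ℕ × ℕ → ℕ := fun y x => (1 + Rt (F y x) (L y x) + Ev q (G y x) (L (y + 1) x)) +
    W (G y x) (L (y + 1) x)
  have hL' : Primrec₂ fun (y : ℕ) (x : ℕ × ℕ) => L (y + 1) x :=
    hL.comp (Primrec.succ.comp Primrec.fst) Primrec.snd
  have hZ : Primrec₂ Z := primrec_add (primrec_add (primrec_add (Primrec.const 1)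
    (primrec_Rt hF hL)) (primrec_Ev (Primrec.const q) hG hL')) (hW.comp hG hL')
  let Sm : ℕ → ℕ × ℕ → ℕ := fun k x => k.rec (Rt (F 0 x) (L 0 x)) fun y s => s + Z y x
  have hSm : Primrec₂ Sm := by
    refine Primrec.nat_rec' (f := fun z : ℕ × (ℕ × ℕ) => z.1)
      (g := fun z : ℕ × (ℕ × ℕ) => Rt (F 0 z.2) (L 0 z.2))
      (h := fun (z : ℕ × (ℕ × ℕ)) (w : ℕ × ℕ) => w.2 + Z w.1 z.2) Primrec.fst ?_ ?_
    · exact primrec_Rt (hF.comp (Primrec.const 0) Primrec.snd)
        (hL.comp (Primrec.const 0) Primrec.snd)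
    · exact primrec_add (Primrec.snd.comp Primrec.snd) (hZ.comp (Primrec.fst.comp Primrec.snd)
        (Primrec.snd.comp Primrec.fst))
  have hloop : ∀ (x : ℕ × ℕ) (k : ℕ), k ≤ x.1.unpair.2 →
      Reach (Rt (F 0 x) (L 0 x)) (Rt (F k x) (L k x)) (Sm k x) := by
    intro x k
    induction k with
    | zero =>
      intro _
      refine ⟨0, Nat.zero_le _, rfl, fun t ht => ?_⟩
      obtain rfl : t = 0 := by omega
      exact le_rfl
    | succ k ih =>
      intro hk
      refine Reach.trans (ih (by omega)) (Reach.trans (Reach.single' ?_) (hq (G k x) _))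
      rw [step_Rt]
      have hne : k ≠ x.1.unpair.2 := by omega
      simp [stepR, L, G, F, unpair_pair, hne]
  refine ⟨r, fun n K => ((1 + Ev r n K + Ev p n.unpair.1 (L 0 (n, K))) +
    V n.unpair.1 (L 0 (n, K))) + (Sm n.unpair.2 (n, K) +
      (1 + Rt (F n.unpair.2 (n, K)) (L n.unpair.2 (n, K)) + Rt (F n.unpair.2 (n, K)) K)), ?_, ?_⟩
  · have hn : Primrec fun x : ℕ × ℕ => x.1 := Primrec.fst
    have hK : Primrec fun x : ℕ × ℕ => x.2 := Primrec.snd
    have hx : Primrec fun x : ℕ × ℕ => (x.1, x.2) := Primrec.id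
    have hn1 : Primrec fun x : ℕ × ℕ => x.1.unpair.1 := Primrec.fst.comp (Primrec.unpair.comp hn)
    have hn2 : Primrec fun x : ℕ × ℕ => x.1.unpair.2 := Primrec.snd.comp (Primrec.unpair.comp hn)
    have hL0 : Primrec fun x : ℕ × ℕ => L 0 (x.1, x.2) := hL.comp (Primrec.const 0) hx
    have hLk : Primrec fun x : ℕ × ℕ => L x.1.unpair.2 (x.1, x.2) := hL.comp hn2 hx
    have hFk : Primrec fun x : ℕ × ℕ => F x.1.unpair.2 (x.1, x.2) := hF.comp hn2 hx
    exact primrec_add (primrec_add (primrec_add (primrec_add (Primrec.const 1)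
      (primrec_Ev (Primrec.const r) hn hK)) (primrec_Ev (Primrec.const p) hn1 hL0))
      (hV.comp hn1 hL0)) (primrec_add (hSm.comp hn2 hx) (primrec_add (primrec_add
        (Primrec.const 1) (primrec_Rt hFk hLk)) (primrec_Rt hFk hK)))
  · intro n K
    refine Reach.trans (Reach.trans (Reach.single' ?_) (hp _ _))
      (Reach.trans (hloop (n, K) n.unpair.2 le_rfl) (Reach.single' ?_))
    · rw [step_Ev]; simp [stepE, r, L, unpair_pair]
    · rw [step_Rt]; simp [stepR, L, F, unpair_pair]

theorem good_of_primrec {f : ℕ → ℕ} (hf : Nat.Primrec f) : Good f := by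
  induction hf with
  | zero =>
    refine good_simple (pair 0 0) (Primrec.const 0) fun n K => ?_
    rw [step_Ev]; simp [stepE, unpair_pair]
  | succ =>
    refine good_simple (pair 1 0) Primrec.succ fun n K => ?_
    rw [step_Ev]; simp [stepE, unpair_pair]
  | left =>
    refine good_simple (pair 2 0) (Primrec.fst.comp Primrec.unpair) fun n K => ?_
    rw [step_Ev]; simp [stepE, unpair_pair]
  | right =>
    refine good_simple (pair 3 0) (Primrec.snd.comp Primrec.unpair) fun n K => ?_
    rw [step_Ev]; simp [stepE, unpair_pair]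
  | pair hf hg ihf ihg => exact good_pair (Primrec.nat_iff.2 hf) (Primrec.nat_iff.2 hg) ihf ihg
  | comp hf hg ihf ihg => exact good_comp (Primrec.nat_iff.2 hg) ihf ihg
  | prec hf hg ihf ihg => exact good_prec (Primrec.nat_iff.2 hf) (Primrec.nat_iff.2 hg) ihf ihg

/-- the bounded run agrees with the run -/
theorem run_eq {e s' W x : ℕ} (h : Reach (init e) s' W) (hfix : step s' = s') (hx : W ≤ x) :
    ∀ t, (∃ T ≤ W, step^[T] (init e) = s' ∧ (∀ t ≤ T, step^[t] (init e) ≤ W) ∧
      (t ≤ T → run t e x = step^[t] (init e)) ∧ (T ≤ t → run t e x = s')) := by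
  obtain ⟨T, hT, h1, h2⟩ := h
  intro t
  refine ⟨T, hT, h1, h2, ?_⟩
  induction t with
  | zero =>
    refine ⟨fun _ => rfl, fun h3 => ?_⟩
    obtain rfl : T = 0 := by omega
    exact h1
  | succ t ih =>
    constructor
    · intro h3
      rw [run, ih.1 (by omega), ← Function.iterate_succ_apply' step t, if_pos]
      exact (h2 _ h3).trans hx
    · intro h3
      rcases Nat.lt_or_ge t T with h4 | h4
      · obtain rfl : T = t + 1 := by omega
        rw [run, ih.1 (by omega), ← Function.iterate_succ_apply' step t, if_pos]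
        · exact h1
        · exact (h2 _ le_rfl).trans hx
      · rw [run, ih.2 h4, hfix]
        split_ifs <;> rfl

theorem acc_iff {f : ℕ → ℕ} {p : ℕ} {W : ℕ → ℕ → ℕ}
    (h : ∀ n K, Reach (Ev p n K) (Rt (f n) K) (W n K)) {e x : ℕ} (he : e.unpair.1 = p)
    (hx : W e 0 ≤ x) : acc e x = if f e = 1 then 1 else 0 := by
  have h1 : Reach (init e) (Rt (f e) 0) (W e 0) := by
    have := h e 0
    rw [← he] at this
    exact this
  have hfix : step (Rt (f e) 0) = Rt (f e) 0 := by
    rw [step_Rt]; simp [stepR]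
  obtain ⟨T, hT, -, -, -, h2⟩ := run_eq h1 hfix hx x
  unfold acc
  rw [h2 (hT.trans hx)]
  have h3 : Rt (f e) 0 = Rt 1 0 ↔ f e = 1 := by
    unfold Rt
    constructor
    · intro h
      have := congrArg (fun z => z.unpair.2.unpair.1) h
      simpa using this
    · intro h; rw [h]
  simp only [h3]

end Pool.Agent.X234.GZ
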